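import Mathlib

namespace Pool.Agent.Results.MP_a699c4_gt.Disproof
open Real Matrix
open scoped ContDiff

/-- The round unit sphere of Euclidean `n`-space. -/
def sph (n : ℕ) : Set (Fin n → ℝ) := {x | x ⬝ᵥ x = 1}

/-- A geodesic of the round `S⁴`: a `C²` curve in the sphere with acceleration normal to it. -/
def IsGeodesic (γ : ℝ → Fin 5 → ℝ) : Prop :=
  ContDiff ℝ 2 γ ∧ (∀ t, γ t ∈ sph 5) ∧ ∀ t, ∃ c : ℝ, deriv (deriv γ) t = c • γ t

/-- Acceleration at time `0` of the image under `φ` of the great circle through `x` with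
initial velocity `e`. -/
noncomputable def acc (φ : (Fin 3 → ℝ) → Fin 5 → ℝ) (x e : Fin 3 → ℝ) : Fin 5 → ℝ :=
  deriv (deriv fun t : ℝ => φ (cos t • x + sin t • e)) 0

/-- The tension field of the restriction of `φ` to `S²`, as a map to `S⁴`, vanishes: for every
point `O 0` of `S²` and orthonormal basis `O 1, O 2` of the tangent plane, the sum of the two
accelerations is normal to `S⁴`. -/
def IsHarmonic (φ : (Fin 3 → ℝ) → Fin 5 → ℝ) : Prop :=
  ∀ O : Matrix (Fin 3) (Fin 3) ℝ, O * Oᵀ = 1 →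
    ∃ c : ℝ, acc φ (O 0) (O 1) + acc φ (O 0) (O 2) = c • φ (O 0)

noncomputable def ver (x : Fin 3 → ℝ) : Fin 5 → ℝ := ![√3 * (x 1 * x 2), √3 * (x 0 * x 2),
  √3 * (x 0 * x 1), √3 * (x 0 ^ 2 - x 1 ^ 2) / 2, (x 0 ^ 2 + x 1 ^ 2 - 2 * x 2 ^ 2) / 2]

noncomputable def cub (a : Fin 5 → ℝ) : ℝ := 6 * √3 * (a 0 * a 1 * a 2) -
  3 * √3 * a 3 * (a 0 ^ 2 - a 1 ^ 2) + 2 * a 4 * (3 * a 2 ^ 2 + 3 * a 3 ^ 2 - a 4 ^ 2) -
  3 * a 4 * (a 0 ^ 2 + a 1 ^ 2)

lemma s3 : (√3 : ℝ) ^ 2 = 3 := sq_sqrt (by norm_num)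

lemma acc_ver (x e : Fin 3 → ℝ) : acc ver x e = (2 : ℝ) • (ver e - ver x) := by
  have h : (fun t : ℝ => ver (cos t • x + sin t • e)) = fun t => (1 / 2 : ℝ) • (ver x + ver e) +
      cos (2 * t) • ((1 / 2 : ℝ) • (ver x - ver e)) +
      sin (2 * t) • ((1 / 2 : ℝ) • (ver (x + e) - ver x - ver e)) := by
    ext t i
    rw [cos_two_mul', sin_two_mul]
    have := sin_sq_add_cos_sq t
    fin_cases i <;> simp [ver]
    · linear_combination √3 * (x 1 * x 2 + e 1 * e 2) / 2 * this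
    · linear_combination √3 * (x 0 * x 2 + e 0 * e 2) / 2 * this
    · linear_combination √3 * (x 0 * x 1 + e 0 * e 1) / 2 * this
    · linear_combination √3 * (x 0 ^ 2 - x 1 ^ 2 + e 0 ^ 2 - e 1 ^ 2) / 4 * this
    · linear_combination (x 0 ^ 2 + x 1 ^ 2 - 2 * x 2 ^ 2 + e 0 ^ 2 + e 1 ^ 2 - 2 * e 2 ^ 2) / 4 * this
  rw [acc, h]
  generalize (1 / 2 : ℝ) • (ver x + ver e) = A
  generalize (1 / 2 : ℝ) • (ver (x + e) - ver x - ver e) = C
  have c := fun t : ℝ => ((hasDerivAt_id t).const_mul 2).cos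
  have s := fun t : ℝ => ((hasDerivAt_id t).const_mul 2).sin
  have d1 := funext fun t => ((((c t).smul_const ((1 / 2 : ℝ) • (ver x - ver e))).const_add A).fun_add
    ((s t).smul_const C)).deriv
  simp only [id] at d1 c s
  rw [d1, ((((s 0).fun_neg.mul_const _).smul_const _).fun_add
    (((c 0).mul_const _).smul_const _)).deriv]
  ext i
  simp
  ring

lemma anti {f f1 : ℝ → ℝ} {w : ℝ} (hw : w ≠ 0) (h : ∀ t, HasDerivAt f (f1 t) t)
    (h1 : ∀ t, HasDerivAt f1 (-w ^ 2 * f t) t) : f (π / w) = -f 0 := by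
  have d : ∀ t, HasDerivAt (fun t => w * (f t * cos (w * t)) - f1 t * sin (w * t)) 0 t := fun t =>
    ((((h t).mul ((hasDerivAt_id t).const_mul w).cos).const_mul w).sub
      ((h1 t).mul ((hasDerivAt_id t).const_mul w).sin)).congr_deriv (by simp; ring)
  have := is_const_of_deriv_eq_zero (fun t => (d t).differentiableAt) (fun t => (d t).deriv) (π / w) 0
  simp [mul_div_cancel₀ _ hw] at this
  exact mul_left_cancel₀ hw (by linarith)

lemma dot {f g : ℝ → Fin 5 → ℝ} {a b : Fin 5 → ℝ} {t : ℝ} (hf : HasDerivAt f a t)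
    (hg : HasDerivAt g b t) : HasDerivAt (fun t => f t ⬝ᵥ g t) (a ⬝ᵥ g t + f t ⬝ᵥ b) t := by
  simp only [dotProduct, ← Finset.sum_add_distrib]
  exact HasDerivAt.fun_sum fun i _ => (hasDerivAt_pi.1 hf i).mul (hasDerivAt_pi.1 hg i)

lemma geo {γ : ℝ → Fin 5 → ℝ} (h : IsGeodesic γ) : (∀ s t, γ s = γ t) ∨ ∃ t, γ t = -γ 0 := by
  obtain ⟨h1, h2, h3⟩ := h
  have d0 : ∀ t, HasDerivAt γ (deriv γ t) t := fun t =>
    (h1.differentiable (by norm_num) t).hasDerivAt
  have d1 : ∀ t, HasDerivAt (deriv γ) (deriv (deriv γ) t) t := fun t =>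
    (h1.differentiable_deriv_two t).hasDerivAt
  have e0 : (fun t => γ t ⬝ᵥ γ t) = fun _ => 1 := funext h2
  have e1 : ∀ t, γ t ⬝ᵥ deriv γ t = 0 := fun t => by
    have := dot (d0 t) (d0 t)
    rw [e0] at this
    linarith [this.unique (hasDerivAt_const t 1), dotProduct_comm (γ t) (deriv γ t)]
  have e2 : ∀ t, deriv (deriv γ) t = -(deriv γ t ⬝ᵥ deriv γ t) • γ t := fun t => by
    obtain ⟨c, hc⟩ := h3 t
    have := dot (d0 t) (d1 t)
    rw [funext e1] at this
    have := this.unique (hasDerivAt_const t 0)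
    rw [hc, dotProduct_smul, h2 t, smul_eq_mul] at this
    rw [hc]; congr 1; linarith
  have e3 : ∀ t, HasDerivAt (fun t => deriv γ t ⬝ᵥ deriv γ t) 0 t := fun t =>
    (dot (d1 t) (d1 t)).congr_deriv (by
      rw [e2 t, smul_dotProduct, dotProduct_smul, dotProduct_comm (deriv γ t) (γ t), e1]; simp)
  have e4 := is_const_of_deriv_eq_zero (fun t => (e3 t).differentiableAt) fun t => (e3 t).deriv
  obtain ⟨w, hw⟩ : ∃ w, w ^ 2 = deriv γ 0 ⬝ᵥ deriv γ 0 :=
    ⟨_, sq_sqrt (Finset.sum_nonneg fun i _ => mul_self_nonneg _)⟩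
  by_cases w0 : w = 0
  · refine Or.inl (is_const_of_deriv_eq_zero (fun t => (d0 t).differentiableAt) fun t => ?_)
    rw [← dotProduct_self_eq_zero, e4 t 0, ← hw, w0]; simp
  · refine Or.inr ⟨π / w, funext fun i => anti w0 (fun t => hasDerivAt_pi.1 (d0 t) i) fun t => ?_⟩
    have := hasDerivAt_pi.1 (d1 t) i
    rwa [e2, e4 t 0, ← hw] at this

theorem result : ∃ (V : Set (Fin 5 → ℝ)) (φ : (Fin 3 → ℝ) → Fin 5 → ℝ), IsOpen V ∧
    (∀ γ, IsGeodesic γ → (∀ t, γ t ∈ V) → ∀ s t, γ s = γ t) ∧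
    ContDiff ℝ ∞ φ ∧ Set.MapsTo φ (sph 3) (sph 5 ∩ V) ∧ IsHarmonic φ ∧
    ∃ x ∈ sph 3, ∃ y ∈ sph 3, φ x ≠ φ y := by
  refine ⟨{a | 0 < cub a}, ver, isOpen_lt continuous_const (by unfold cub; fun_prop),
    fun γ hγ hV => (geo hγ).resolve_right fun ⟨t, ht⟩ => ?_, contDiff_pi.2 fun i => ?_,
    fun x hx => ?_, fun O hO => ⟨-6, ?_⟩, ![1, 0, 0], by simp [sph], ![0, 0, 1], by simp [sph],
    fun h => ?_⟩
  · have a := hV t
    have b := hV 0
    rw [ht] at a
    simp only [Set.mem_ofPred_eq, cub, Pi.neg_apply] at a b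
    linarith
  · fin_cases i <;> simp [ver] <;> fun_prop
  · simp only [sph, dotProduct, Fin.sum_univ_three, Set.mem_ofPred_eq] at hx
    have h3 : √3 ^ 3 = 3 * √3 := by rw [pow_succ, s3]
    have h4 : √3 ^ 4 = 9 := by rw [show 4 = 2 * 2 from rfl, pow_mul, s3]; norm_num
    constructor
    · simp [sph, dotProduct, Fin.sum_univ_succ, ver]
      ring_nf
      rw [s3]
      linear_combination (x 0 * x 0 + x 1 * x 1 + x 2 * x 2 + 1) * hx
    · have : cub (ver x) = 2 * (x 0 * x 0 + x 1 * x 1 + x 2 * x 2) ^ 3 := by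
        simp [cub, ver]
        ring_nf
        rw [s3, h4]
        ring
      simp [this, hx]
  · have hO' : Oᵀ * O = 1 := mul_eq_one_comm.1 hO
    have h := fun i j => congrFun (congrFun hO' i) j
    have a := h 0 0
    have b := h 1 1
    have c := h 2 2
    have d := h 0 1
    have e := h 0 2
    have f := h 1 2
    simp [mul_apply, Fin.sum_univ_three] at a b c d e f
    ext i
    fin_cases i <;> simp [acc_ver, ver]
    · linear_combination 2 * √3 * f
    · linear_combination 2 * √3 * e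
    · linear_combination 2 * √3 * d
    · linear_combination √3 * (a - b)
    · linear_combination a + b - 2 * c
  · have := congrFun h 4
    simp [ver] at this
    linarith

end Pool.Agent.Results.MP_a699c4_gt.Disproof
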